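import Pool.Agent.X76.NoCol

/-!
# The chromatic number of the span-colouring graph `A_{k^n}` exceeds `n` for every field

The proof exhibits 21 pairs `(u, φ)` of integral vectors in `ℤ³` with entries in `{-1, 0, 1}` and
`φ ⬝ u = 1` whose orthogonality graph is not 3-colourable, and reduces them modulo all fields.
-/

set_option autoImplicit false

namespace Pool.Agent.Results.MP_3b2a32_co.SpanGraphAllFields

universe u

/-- The vertices of `A_{k^n}`: pairs `(U, V)` of subspaces of `k^n` with `dim U = 1` and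
`U ⊕ V = k^n`. -/
structure Vert (k : Type u) [Field k] (n : ℕ) where
  /-- the line -/
  U : Submodule k (Fin n → k)
  /-- the hyperplane -/
  V : Submodule k (Fin n → k)
  dim_U : Module.finrank k U = 1
  isCompl : IsCompl U V

/-- The span-colouring graph `A_{k^n}`: `(U, V)` and `(U', V')` are adjacent if and only if
`U ⊆ V'` and `U' ⊆ V`. -/
def spanGraph (k : Type u) [Field k] (n : ℕ) : SimpleGraph (Vert k n) where
  Adj p q := p.U ≤ q.V ∧ q.U ≤ p.V
  symm := ⟨fun _ _ h => ⟨h.2, h.1⟩⟩
  loopless := ⟨by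
    intro p h
    have h1 : p.U = ⊥ := disjoint_self.mp (p.isCompl.disjoint.mono_right h.1)
    have h2 := p.dim_U
    rw [h1, finrank_bot] at h2
    exact absurd h2 (by norm_num)⟩

/-- The 21 pairs of integral vectors. -/
def pairs : List ((ℤ × ℤ × ℤ) × (ℤ × ℤ × ℤ)) :=
  [((0, 1, 0), (0, 1, 0)), ((1, 0, 0), (1, 0, 0)), ((0, 0, 1), (0, 0, 1)),
   ((1, 0, -1), (0, 0, -1)), ((1, 0, 0), (1, 0, 1)), ((1, -1, 0), (0, -1, 0)),
   ((1, 0, 0), (1, 1, 1)), ((0, 1, -1), (0, 0, -1)), ((0, 1, 0), (0, 1, 1)),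
   ((1, -1, -1), (0, -1, 0)), ((0, 0, 1), (0, -1, 1)), ((0, 1, 1), (0, 1, 0)),
   ((1, 0, -1), (1, 0, 0)), ((0, 0, 1), (1, 0, 1)), ((0, 1, 0), (1, 1, 0)),
   ((1, -1, -1), (1, 0, 0)), ((0, 1, 1), (1, 1, 0)), ((1, -1, 0), (1, 0, 1)),
   ((1, -1, -1), (1, 1, -1)), ((0, 1, 1), (1, 0, 1)), ((0, 1, 0), (-1, 1, -1))]

/-- the `i`-th line -/
def uz (i : ℕ) : ℤ × ℤ × ℤ := (pairs.getD i ((0, 0, 0), (0, 0, 0))).1

/-- the `i`-th functional -/
def pz (i : ℕ) : ℤ × ℤ × ℤ := (pairs.getD i ((0, 0, 0), (0, 0, 0))).2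

/-- dot product -/
def dz (x y : ℤ × ℤ × ℤ) : ℤ := x.1 * y.1 + x.2.1 * y.2.1 + x.2.2 * y.2.2

/-- orthogonality -/
def adjB (i j : ℕ) : Bool := dz (uz i) (pz j) == 0 && dz (uz j) (pz i) == 0

lemma dz_self : ∀ i : Fin 21, dz (uz i) (pz i) = 1 := by decide +kernel

/-- The orthogonality graph of the 21 pairs together with `m` vertices adjacent to all others. -/
def H (m : ℕ) : SimpleGraph (Fin 21 ⊕ Fin m) where
  Adj x y := match x, y with
    | .inl i, .inl j => adjB i j = true
    | .inr i, .inr j => i ≠ j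
    | .inl _, .inr _ => True
    | .inr _, .inl _ => True
  symm := ⟨by
    rintro (i | i) (j | j) h
    · show adjB j i = true
      have h' : adjB i j = true := h
      rw [adjB, Bool.and_comm] at h'
      exact h'
    · trivial
    · trivial
    · exact fun h' => h h'.symm⟩
  loopless := ⟨by
    rintro (i | i) h
    · have h' : adjB i i = true := h
      rw [adjB, dz_self i] at h'
      exact absurd h' (by decide)
    · exact h rfl⟩

/-- The orthogonality graph of the 21 pairs. -/
def H0 : SimpleGraph (Fin 21) := (H 0).comap Sum.inl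

lemma H0_not : ¬ H0.Colorable 3 :=
  Pool.Agent.X76.not_colorable_of_noCol H0 adjB (fun _ _ h => h) 3 (by decide +kernel)

/-- `H m` is not `(m+3)`-colourable. -/
lemma H_not (m : ℕ) : ¬ (H m).Colorable (m + 3) := by
  rintro ⟨c⟩
  classical
  apply H0_not
  -- the colours of the extra vertices
  let T : Finset (Fin (m + 3)) := Finset.univ.image (fun j : Fin m => c (.inr j))
  have hinj : Function.Injective (fun j : Fin m => c (.inr j)) := by
    intro i j hij
    by_contra hne
    exact c.valid (v := .inr i) (w := .inr j) hne hij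
  have hT : T.card = m := by
    rw [Finset.card_image_of_injective _ hinj]
    simp
  have hc : ∀ i : Fin 21, c (.inl i) ∈ Tᶜ := by
    intro i
    rw [Finset.mem_compl, Finset.mem_image]
    rintro ⟨j, _, hj⟩
    exact c.valid (v := .inr j) (w := .inl i) trivial hj
  have col : H0.Coloring (Tᶜ : Finset (Fin (m + 3))) :=
    SimpleGraph.Coloring.mk (fun i => ⟨c (.inl i), hc i⟩) (by
      intro i j hij heq
      have h2 : c (.inl i) = c (.inl j) := congrArg Subtype.val heq
      exact c.valid (v := .inl i) (w := .inl j) hij h2)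
  have h3 := col.colorable
  rw [Fintype.card_coe, Finset.card_compl, hT, Fintype.card_fin] at h3
  have e : m + 3 - m = 3 := by omega
  rwa [e] at h3

variable {k : Type u} [Field k]

/-- The vertex of `A_{k^n}` given by a vector `u` and a functional `φ` with `φ ⬝ u = 1`. -/
def mkV {n : ℕ} (u φ : Fin n → k) (h : φ ⬝ᵥ u = 1) : Vert k n where
  U := Submodule.span k {u}
  V := LinearMap.ker (dotProductBilin k k φ)
  dim_U := by
    apply finrank_span_singleton
    rintro rfl
    rw [dotProduct_zero] at h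
    exact zero_ne_one h
  isCompl := by
    constructor
    · rw [Submodule.disjoint_def]
      intro x hx hx'
      obtain ⟨c, rfl⟩ := Submodule.mem_span_singleton.mp hx
      have h1 : φ ⬝ᵥ (c • u) = 0 := hx'
      rw [dotProduct_smul, h, smul_eq_mul, mul_one] at h1
      rw [h1, zero_smul]
    · rw [codisjoint_iff, eq_top_iff]
      intro x _
      have h1 : x = (φ ⬝ᵥ x) • u + (x - (φ ⬝ᵥ x) • u) := by abel
      rw [h1]
      refine Submodule.add_mem_sup (Submodule.smul_mem _ _ (Submodule.mem_span_singleton_self u)) ?_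
      show φ ⬝ᵥ (x - (φ ⬝ᵥ x) • u) = 0
      rw [dotProduct_sub, dotProduct_smul, h, smul_eq_mul, mul_one, sub_self]

lemma mkV_adj {n : ℕ} (u φ u' φ' : Fin n → k) (h : φ ⬝ᵥ u = 1) (h' : φ' ⬝ᵥ u' = 1)
    (h1 : φ' ⬝ᵥ u = 0) (h2 : φ ⬝ᵥ u' = 0) : (spanGraph k n).Adj (mkV u φ h) (mkV u' φ' h') := by
  constructor
  · show Submodule.span k {u} ≤ LinearMap.ker (dotProductBilin k k φ')
    rw [Submodule.span_singleton_le_iff_mem]
    exact h1
  · show Submodule.span k {u'} ≤ LinearMap.ker (dotProductBilin k k φ)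
    rw [Submodule.span_singleton_le_iff_mem]
    exact h2

/-- An integral vector of `ℤ³` as a vector of `k^(m+3)`. -/
def ext (m : ℕ) (x : ℤ × ℤ × ℤ) : Fin (m + 3) → k :=
  Matrix.vecCons (x.1 : k) (Matrix.vecCons (x.2.1 : k) (Matrix.vecCons (x.2.2 : k) 0))

lemma ext_dot (m : ℕ) (x y : ℤ × ℤ × ℤ) : (ext m y : Fin (m + 3) → k) ⬝ᵥ ext m x = (dz x y : k) := by
  unfold ext dz
  rw [Matrix.cons_dotProduct_cons, Matrix.cons_dotProduct_cons, Matrix.cons_dotProduct_cons,
    zero_dotProduct]
  push_cast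
  ring

/-- the index of the `j`-th further basis vector -/
def idx {m : ℕ} (j : Fin m) : Fin (m + 3) := j.succ.succ.succ

lemma ext_idx (m : ℕ) (x : ℤ × ℤ × ℤ) (j : Fin m) : (ext m x : Fin (m + 3) → k) (idx j) = 0 := by
  simp [ext, idx]

/-- The homomorphism from `H m` to `A_{k^(m+3)}`. -/
def hom (k : Type u) [Field k] (m : ℕ) : H m →g spanGraph k (m + 3) where
  toFun x := match x with
    | .inl i => mkV (ext m (uz i)) (ext m (pz i)) (by rw [ext_dot, dz_self i]; simp)
    | .inr j => mkV (Pi.single (idx j) 1) (Pi.single (idx j) 1) (by simp)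
  map_rel' := by
    rintro (i | i) (j | j) h
    · have h' : adjB i j = true := h
      rw [adjB, Bool.and_eq_true, beq_iff_eq, beq_iff_eq] at h'
      apply mkV_adj
      · rw [ext_dot, h'.1, Int.cast_zero]
      · rw [ext_dot, h'.2, Int.cast_zero]
    · apply mkV_adj
      · rw [single_dotProduct, ext_idx, mul_zero]
      · rw [dotProduct_single, ext_idx, zero_mul]
    · apply mkV_adj
      · rw [dotProduct_single, ext_idx, zero_mul]
      · rw [single_dotProduct, ext_idx, mul_zero]
    · have hne : i ≠ j := h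
      have hne' : idx i ≠ idx j := by
        intro h'
        apply hne
        simpa [idx] using h'
      apply mkV_adj
      · rw [single_dotProduct, Pi.single_eq_of_ne hne'.symm, mul_zero]
      · rw [single_dotProduct, Pi.single_eq_of_ne hne', mul_zero]

/-- **Theorem.** `χ(A_{k^n}) > n` for every field `k` and every `n ≥ 3`. Moreover for every `n ≥ 3`
one finite graph on `n + 18` vertices is not `n`-colourable but maps to `A_{k^n}` for every field
`k`. -/
theorem result :
    (∀ (k : Type u) [Field k] (n : ℕ), 3 ≤ n → (n : ℕ∞) < (spanGraph k n).chromaticNumber) ∧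
    ∀ n : ℕ, 3 ≤ n → ∃ G : SimpleGraph (Fin (n + 18)), ¬ G.Colorable n ∧
      ∀ (k : Type u) [Field k], Nonempty (G →g spanGraph k n) := by
  constructor
  · intro k _ n hn
    obtain ⟨m, rfl⟩ : ∃ m, n = m + 3 := ⟨n - 3, by omega⟩
    rw [lt_iff_not_ge, SimpleGraph.chromaticNumber_le_iff_colorable]
    exact fun h => H_not m (h.of_hom (hom k m))
  · intro n hn
    obtain ⟨m, rfl⟩ : ∃ m, n = m + 3 := ⟨n - 3, by omega⟩
    have e : Fin (m + 3 + 18) ≃ Fin 21 ⊕ Fin m :=
      (finCongr (by omega : m + 3 + 18 = 21 + m)).trans finSumFinEquiv.symm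
    refine ⟨(H m).comap e, ?_, ?_⟩
    · intro h
      exact H_not m (h.of_hom (SimpleGraph.Iso.comap e (H m)).symm.toHom)
    · intro k _
      exact ⟨(hom k m).comp (SimpleGraph.Iso.comap e (H m)).toHom⟩

end Pool.Agent.Results.MP_3b2a32_co.SpanGraphAllFields
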